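import Pool.Agent.Run7.h852.CO.Fin

/-!
# Bounded solutions of the four-body problem are nearly coplanar again and again

Let `V` be six times the signed volume of the tetrahedron of the four bodies, `J` the angular momentum
about the centre of mass and `S = ∑_{i<j} (m_i + m_j) / r_ij ^ 3`. Along every solution, as long as
`V ≠ 0`,

`(log |V|)'' + ((log |V|)') ^ 2 / 3 ≤ - S + M (J · G J) / (2 m_1 m_2 m_3 m_4 V ^ 2)`,

where `M` is the total mass and `G = ∑ m_i (x_i - c) (x_i - c)ᵀ`. (Write `x_i' - c' = W (x_i - c)` with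
a matrix `W`; then `(log V)' = tr W`, `(log V)'' = - S - tr W ^ 2`, and `tr W ^ 2` is at least
`(tr W) ^ 2 / 3` minus the square of the antisymmetric part of `W` in the metric `G`, which is given by
`J`.) If the distances are at most `R` then `S ≥ 3 M / R ^ 3`, and `|V| ^ (1 / 3)` satisfies Sturm's
comparison inequality while `3 m_1 m_2 m_3 m_4 V ^ 2 > R ^ 3 (J · G J)`.
-/

set_option autoImplicit false

namespace Pool.Agent.Results.MP_7235ad_an.NearlyCoplanarInstants

/-- The space `R³`. -/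
abbrev R3 : Type := EuclideanSpace ℝ (Fin 3)

/-- The cross product. -/
def cross (a b : R3) : R3 :=
  !₂[a 1 * b 2 - a 2 * b 1, a 2 * b 0 - a 0 * b 2, a 0 * b 1 - a 1 * b 0]

/-- The determinant of `q₁ - q₀, q₂ - q₀, q₃ - q₀`: six times the signed volume of the tetrahedron of
the four bodies. It is zero if and only if the bodies are coplanar. -/
noncomputable def volume6 (q : Fin 4 → R3) : ℝ :=
  inner ℝ (q 1 - q 0) (cross (q 2 - q 0) (q 3 - q 0))

/-- A collision-free solution of the four-body problem at the times of `I`, with the positions `x` and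
the velocities `v`. -/
structure IsSolution (m : Fin 4 → ℝ) (I : Set ℝ) (x v : ℝ → Fin 4 → R3) : Prop where
  free : ∀ t ∈ I, ∀ i j, i ≠ j → x t i ≠ x t j
  velocity : ∀ t ∈ I, ∀ i, HasDerivAt (fun s => x s i) (v t i) t
  newton : ∀ t ∈ I, ∀ i, HasDerivAt (fun s => v s i)
    (∑ j, (m j / ‖x t j - x t i‖ ^ 3) • (x t j - x t i)) t

/-- The centre of mass (or its velocity). -/
noncomputable def centre (m : Fin 4 → ℝ) (q : Fin 4 → R3) : R3 := (∑ i, m i)⁻¹ • ∑ i, m i • q i

/-- The angular momentum about the centre of mass. -/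
noncomputable def angularMomentum (m : Fin 4 → ℝ) (q w : Fin 4 → R3) : R3 :=
  ∑ i, m i • cross (q i - centre m q) (w i - centre m w)

theorem vol_eq (q : Fin 4 → R3) : volume6 q = Run7.h852.CO.Vl q := Run7.h852.CO.inner_cr _ _ _

theorem ang_eq {m : Fin 4 → ℝ} (hm : ∀ i, 0 < m i) (q w : Fin 4 → R3) :
    Run7.h852.CO.ang m q w = angularMomentum m q w := Run7.h852.CO.ang_eq m hm q w

theorem sol {m : Fin 4 → ℝ} {I : Set ℝ} {x v : ℝ → Fin 4 → R3} (h : IsSolution m I x v) :
    Run7.h852.CO.IsSol m I x v := ⟨h.free, h.velocity, h.newton⟩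

/-- Let all distances of a collision-free solution of the spatial four-body problem be at most `R`. Then
every time interval `[a, b]` of length at least `π √(2 R ^ 3 / M)` contains an instant `t` at which

`3 m_0 m_1 m_2 m_3 V ^ 2 ≤ R ^ 3 ∑ m_i (J · (x_i - c)) ^ 2`,

`V` = six times the signed volume, `M` = total mass, `c` = centre of mass, `J` = angular momentum about
`c`. -/
theorem result (m : Fin 4 → ℝ) (hm : ∀ i, 0 < m i) (R : ℝ) (hR : 0 < R) (I : Set ℝ)
    (x v : ℝ → Fin 4 → R3) (hs : IsSolution m I x v)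
    (hB : ∀ t ∈ I, ∀ i j, ‖x t i - x t j‖ ≤ R) (a b : ℝ) (hI : Set.Icc a b ⊆ I)
    (hab : Real.pi * √(2 * R ^ 3 / ∑ i, m i) ≤ b - a) :
    ∃ t ∈ Set.Icc a b, 3 * (m 0 * m 1 * m 2 * m 3) * volume6 (x t) ^ 2 ≤
      R ^ 3 * ∑ i, m i *
        inner ℝ (angularMomentum m (x t) (v t)) (x t i - centre m (x t)) ^ 2 := by
  obtain ⟨t, ht, h1⟩ := Run7.h852.CO.bounded_main hm hR (sol hs) hB a b hI hab
  rw [Run7.h852.CO.QJ_eq m hm, ang_eq hm, ← vol_eq] at h1
  have hM : 0 < ∑ i, m i := Finset.sum_pos (fun i _ => hm i) Finset.univ_nonempty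
  have h2 : 3 * (∑ i, m i) * (m 0 * m 1 * m 2 * m 3) * volume6 (x t) ^ 2 ≤
      R ^ 3 * ((∑ i, m i) * ∑ i, m i *
        inner ℝ (angularMomentum m (x t) (v t)) (x t i - centre m (x t)) ^ 2) := h1
  refine ⟨t, ht, le_of_mul_le_mul_left ?_ hM⟩
  calc (∑ i, m i) * (3 * (m 0 * m 1 * m 2 * m 3) * volume6 (x t) ^ 2) =
        3 * (∑ i, m i) * (m 0 * m 1 * m 2 * m 3) * volume6 (x t) ^ 2 := by ring
    _ ≤ _ := h2
    _ = _ := by ring

end Pool.Agent.Results.MP_7235ad_an.NearlyCoplanarInstants
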